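import Pool.Agent.helper5.DH.Spec

/-!
# DH.INR: the inradius of `V_k` tends to zero
-/

set_option autoImplicit false

open Complex Metric Set Filter Topology MeasureTheory
open Pool.Agent.helper98.ILF Pool.Agent.helper16.Multibrot
open HY (UD T S hd UN RM VV SG Orb fz)

noncomputable section

namespace DH

theorem INR (hV : HY.VKB_stmt) : INR_stmt := by
  intro n c hn hc hint ε hε
  obtain ⟨-, -, -, -, -, -, hball, hnest, -, -, hfil, -⟩ := hV n c hn hc
  have hanti : Antitone (fun k => VV n c k) := antitone_nat_of_succ_le hnest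
  by_contra hcon
  push Not at hcon
  have hz : ∀ k : ℕ, ∃ z : ℂ, ball z ε ⊆ VV n c k := by
    intro k
    obtain ⟨k', hk', z, hz⟩ := hcon k
    exact ⟨z, hz.trans (hanti hk')⟩
  choose z hz using hz
  have hz4 : ∀ k, z k ∈ closedBall (0 : ℂ) 4 := fun k =>
    ball_subset_closedBall (hball k (hz k (mem_ball_self hε)))
  obtain ⟨w, -, φ, hφ, hlim⟩ := (isCompact_closedBall (0 : ℂ) 4).tendsto_subseq hz4
  have hsub : ball w (ε / 2) ⊆ filled n c := by
    intro x hx
    apply hfil 0 x
    intro l _
    have h1 : ∀ᶠ j in atTop, dist ((z ∘ φ) j) w < ε / 2 :=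
      (tendsto_iff_dist_tendsto_zero.mp hlim).eventually (gt_mem_nhds (by positivity))
    have h2 : ∀ᶠ j in atTop, l ≤ φ j := hφ.tendsto_atTop.eventually (eventually_ge_atTop l)
    obtain ⟨j, hj1, hj2⟩ := (h1.and h2).exists
    apply hanti hj2
    apply hz (φ j)
    rw [mem_ball] at hx ⊢
    have h3 : dist w (z (φ j)) < ε / 2 := by rw [dist_comm]; exact hj1
    calc dist x (z (φ j)) ≤ dist x w + dist w (z (φ j)) := dist_triangle _ _ _
      _ < ε := by linarith
  have h3 : w ∈ interior (filled n c) :=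
    mem_interior.mpr ⟨ball w (ε / 2), hsub, isOpen_ball, mem_ball_self (by positivity)⟩
  rw [hint] at h3
  exact h3

end DH
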